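import Mathlib
import Pool.Agent.H139R3.FS.Final

set_option autoImplicit false

/-!
# A transitive action of a Polish group on a metrizable space without equivariant compactification

`Fan` is a countable metrizable space with a centre, bars `bar n k` tending to the centre as
`k → ∞` uniformly in `n`, and isolated satellites `sat n k j b` (`b ∈ ZMod 2`) with
`sat n k j 0 → bar n k` and `sat n k j 1 → bar n (k + 1)` as `j → ∞`. The countable power `Ag` of a
discrete group acts on it, its `n`-th coordinate exchanging `sat n k j 0` and `sat n k j 1`. In an
equivariant compactification an element of `Ag` with trivial first `N` coordinates moves nothing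
by more than `ε`, so consecutive bars of the `n`-th line are `ε`-close for `n ≥ N`, and the
first bar `bar n 0` would be close to the centre.

This action is made transitive by passing to the countable power of the fan, with the wreath
product `Ag wr Sym(ℕ)` acting: on the set of all sequences in which every `Ag`-orbit of the fan
is met infinitely often the action has one orbit, and the fan embeds there as a coordinate line.
-/

namespace Pool.Agent.Results.MP_ac5cde_gt.TransitiveNotTychonoff

open H139FS

universe u

/-- There is a Polish (hence metrizable) topological group `G` acting continuously and with a
single orbit on a nonempty separable metrizable space `X`, such that no equivariant map of `X` to a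
compact Hausdorff space with a continuous action of `G` is a topological embedding. -/
theorem result :
    ∃ (G X : Type) (_ : Group G) (_ : TopologicalSpace G) (_ : TopologicalSpace X)
      (_ : MulAction G X),
      IsTopologicalGroup G ∧ PolishSpace G ∧ TopologicalSpace.MetrizableSpace G ∧
      TopologicalSpace.MetrizableSpace X ∧ SecondCountableTopology X ∧ Nonempty X ∧
      ContinuousSMul G X ∧ (∀ x y : X, ∃ g : G, g • x = y) ∧
      ∀ (Y : Type u) [TopologicalSpace Y] [CompactSpace Y] [T2Space Y] [MulAction G Y]
        [ContinuousSMul G Y] (ν : X → Y), (∀ (g : G) (x : X), ν (g • x) = g • ν x) →
          ¬ Topology.IsEmbedding ν :=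
  ⟨GG, XX, inferInstance, inferInstance, inferInstance, inferInstance, inferInstance,
    inferInstance, inferInstance, inferInstance, inferInstance, inferInstance, inferInstance,
    MulAction.exists_smul_eq GG, fun _ => not_embedding⟩

end Pool.Agent.Results.MP_ac5cde_gt.TransitiveNotTychonoff
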